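import Mathlib

set_option autoImplicit false

namespace Pool.Agent.Results.MP_5ee7f3_co.BridgedMultipartite

open SimpleGraph

/-- `G` contains an immersion of `K_d`: distinct corners `v 0, ..., v (d-1)` and, for `i < j`, paths
`P i j` from `v i` to `v j` which are pairwise edge-disjoint. -/
def HasImmersion {V : Type} (G : SimpleGraph V) (d : ℕ) : Prop :=
  ∃ (v : Fin d → V) (P : ∀ i j : Fin d, G.Walk (v i) (v j)), Function.Injective v ∧
    (∀ i j, i < j → (P i j).IsPath) ∧
    ∀ i j k l, i < j → k < l → (i, j) ≠ (k, l) → ∀ e, e ∈ (P i j).edges → e ∉ (P k l).edges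

/-- coordinates in a copy of `K_{3,3,3,3}` -/
abbrev C : Type := Fin 4 × Fin 3

/-- the vertices: a clique on `Fin 9` and nine copies of `K_{3,3,3,3}` -/
abbrev VV : Type := Fin 9 ⊕ (Fin 9 × C)

/-- adjacency -/
def adj : VV → VV → Bool
  | .inl i, .inl j => i != j
  | .inl i, .inr (j, x) => i == j && x == (0, 0)
  | .inr (j, x), .inl i => i == j && x == (0, 0)
  | .inr (i, x), .inr (j, y) => i == j && x.1 != y.1

/-- the graph -/
def G : SimpleGraph VV where
  Adj a b := adj a b = true
  symm := ⟨by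
    rintro (i | ⟨i, x⟩) (j | ⟨j, y⟩) h
    · simp only [adj, bne_iff_ne, ne_eq] at h ⊢
      exact fun h' => h h'.symm
    · exact h
    · exact h
    · simp only [adj, Bool.and_eq_true, beq_iff_eq, bne_iff_ne, ne_eq] at h ⊢
      exact ⟨h.1.symm, fun h' => h.2 h'.symm⟩⟩
  loopless := ⟨by
    rintro (i | ⟨i, x⟩) h
    · simp [adj] at h
    · simp [adj] at h⟩

instance : DecidableRel G.Adj := fun a b => by unfold G; infer_instance

lemma adj_ll (i j : Fin 9) : G.Adj (.inl i) (.inl j) ↔ i ≠ j := by
  show adj _ _ = true ↔ _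
  simp [adj]

lemma adj_lr (i j : Fin 9) (x : C) : G.Adj (.inl i) (.inr (j, x)) ↔ i = j ∧ x = (0, 0) := by
  show adj _ _ = true ↔ _
  simp [adj]

lemma adj_rl (i j : Fin 9) (x : C) : G.Adj (.inr (j, x)) (.inl i) ↔ i = j ∧ x = (0, 0) := by
  show adj _ _ = true ↔ _
  simp [adj]

lemma adj_rr (i j : Fin 9) (x y : C) :
    G.Adj (.inr (i, x)) (.inr (j, y)) ↔ i = j ∧ x.1 ≠ y.1 := by
  show adj _ _ = true ↔ _
  simp [adj]

/-! ### minimum degree and chromatic number -/

lemma minDegree_eq : G.minDegree = 9 := by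
  apply le_antisymm
  · refine (G.minDegree_le_degree (.inl 0)).trans ?_
    rw [← SimpleGraph.card_neighborFinset_eq_degree]
    have h : G.neighborFinset (.inl 0) ⊆
        ((Finset.univ : Finset (Fin 9)).erase 0).image Sum.inl ∪ {.inr (0, (0, 0))} := by
      intro z hz
      rw [SimpleGraph.mem_neighborFinset] at hz
      rw [Finset.mem_union, Finset.mem_image, Finset.mem_singleton]
      rcases z with j | ⟨j, x⟩
      · rw [adj_ll] at hz
        exact Or.inl ⟨j, by simp [hz.symm], rfl⟩
      · rw [adj_lr] at hz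
        exact Or.inr (by rw [← hz.1, hz.2])
    refine (Finset.card_le_card h).trans ((Finset.card_union_le _ _).trans ?_)
    have h1 := Finset.card_image_le (s := (Finset.univ : Finset (Fin 9)).erase 0)
      (f := (Sum.inl : Fin 9 → VV))
    have h2 : ((Finset.univ : Finset (Fin 9)).erase 0).card = 8 := by decide
    rw [Finset.card_singleton]
    omega
  · apply SimpleGraph.le_minDegree_of_forall_le_degree
    rintro (i | ⟨i, x⟩)
    · rw [← SimpleGraph.card_neighborFinset_eq_degree]
      have h : ((Finset.univ : Finset (Fin 9)).erase i).image Sum.inl ∪ {.inr (i, (0, 0))} ⊆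
          G.neighborFinset (.inl i) := by
        intro z hz
        rw [SimpleGraph.mem_neighborFinset]
        rw [Finset.mem_union, Finset.mem_image, Finset.mem_singleton] at hz
        rcases hz with ⟨j, hj, rfl⟩ | rfl
        · rw [adj_ll]
          rw [Finset.mem_erase] at hj
          exact hj.1.symm
        · rw [adj_lr]
          exact ⟨rfl, rfl⟩
      refine le_trans ?_ (Finset.card_le_card h)
      rw [Finset.card_union_of_disjoint, Finset.card_image_of_injective _ Sum.inl_injective,
        Finset.card_erase_of_mem (Finset.mem_univ _), Finset.card_singleton]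
      · simp
      · rw [Finset.disjoint_singleton_right, Finset.mem_image]
        rintro ⟨j, -, hj⟩
        exact absurd hj (by simp)
    · rw [← SimpleGraph.card_neighborFinset_eq_degree]
      have h : (Finset.univ.filter (fun y : C => x.1 ≠ y.1)).image
          (fun y => (Sum.inr (i, y) : VV)) ⊆ G.neighborFinset (.inr (i, x)) := by
        intro z hz
        rw [SimpleGraph.mem_neighborFinset]
        rw [Finset.mem_image] at hz
        obtain ⟨y, hy, rfl⟩ := hz
        rw [Finset.mem_filter] at hy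
        rw [adj_rr]
        exact ⟨rfl, hy.2⟩
      refine le_trans ?_ (Finset.card_le_card h)
      rw [Finset.card_image_of_injective]
      · have : ∀ x : C, 9 ≤ (Finset.univ.filter (fun y : C => x.1 ≠ y.1)).card := by decide
        exact this x
      · intro a b hab
        simpa using hab

lemma chi_eq : G.chromaticNumber = 9 := by
  apply le_antisymm
  · have h : G.Colorable 9 := by
      refine ⟨SimpleGraph.Coloring.mk (fun z => match z with
        | .inl i => i
        | .inr (i, x) => i + 1 + (⟨x.1, by omega⟩ : Fin 9)) ?_⟩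
      rintro (i | ⟨i, x⟩) (j | ⟨j, y⟩) h
      · exact (adj_ll i j).1 h
      · obtain ⟨rfl, rfl⟩ := (adj_lr i j y).1 h
        revert i
        decide
      · obtain ⟨rfl, rfl⟩ := (adj_rl j i x).1 h
        revert j
        decide
      · obtain ⟨rfl, h2⟩ := (adj_rr i j x y).1 h
        intro h3
        apply h2
        have h4 := add_left_cancel h3
        rw [Fin.mk.injEq] at h4
        exact Fin.ext h4
    exact h.chromaticNumber_le
  · have h : (⊤ : SimpleGraph (Fin 9)).chromaticNumber ≤ G.chromaticNumber := by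
      apply SimpleGraph.chromaticNumber_mono_of_hom
      exact ⟨Sum.inl, fun {a b} h => (adj_ll a b).2 h⟩
    rw [SimpleGraph.chromaticNumber_top] at h
    simpa using h

/-! ### symmetric families of paths -/

/-- a symmetric version of an immersion -/
structure Sys (d : ℕ) (v : Fin d → VV) (W : ∀ i j : Fin d, G.Walk (v i) (v j)) : Prop where
  inj : Function.Injective v
  path : ∀ i j, i ≠ j → (W i j).IsPath
  symm : ∀ i j e, i ≠ j → (e ∈ (W i j).edges ↔ e ∈ (W j i).edges)
  disj : ∀ i j k l, i ≠ j → k ≠ l → s(i, j) ≠ s(k, l) → ∀ e, e ∈ (W i j).edges →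
    e ∉ (W k l).edges

lemma exists_sys {d : ℕ} (h : HasImmersion G d) : ∃ v W, Sys d v W := by
  obtain ⟨v, P, hinj, hpath, hdisj⟩ := h
  have hedge : ∀ i j e, i < j → (e ∈ ((if i < j then P i j else (P j i).reverse :
      G.Walk (v i) (v j))).edges ↔ e ∈ (P i j).edges) := by
    intro i j e hij
    rw [if_pos hij]
  have hedge' : ∀ i j e, j < i → (e ∈ ((if i < j then P i j else (P j i).reverse :
      G.Walk (v i) (v j))).edges ↔ e ∈ (P j i).edges) := by
    intro i j e hij
    rw [if_neg (not_lt.2 hij.le), SimpleGraph.Walk.edges_reverse, List.mem_reverse]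
  refine ⟨v, fun i j => if i < j then P i j else (P j i).reverse, hinj, ?_, ?_, ?_⟩
  · intro i j hij
    rcases lt_or_gt_of_ne hij with h | h
    · rw [if_pos h]
      exact hpath i j h
    · rw [if_neg (not_lt.2 h.le)]
      exact (hpath j i h).reverse
  · intro i j e hij
    rcases lt_or_gt_of_ne hij with h | h
    · rw [hedge i j e h, hedge' j i e h]
    · rw [hedge' i j e h, hedge j i e h]
  · intro i j k l hij hkl hne e he
    rcases lt_or_gt_of_ne hij with h | h <;> rcases lt_or_gt_of_ne hkl with h' | h'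
    · rw [hedge i j e h] at he
      rw [hedge k l e h']
      refine hdisj i j k l h h' ?_ e he
      rintro h3
      rw [Prod.mk.injEq] at h3
      exact hne (by rw [h3.1, h3.2])
    · rw [hedge i j e h] at he
      rw [hedge' k l e h']
      refine hdisj i j l k h h' ?_ e he
      rintro h3
      rw [Prod.mk.injEq] at h3
      exact hne (by rw [h3.1, h3.2, Sym2.eq_swap])
    · rw [hedge' i j e h] at he
      rw [hedge k l e h']
      refine hdisj j i k l h h' ?_ e he
      rintro h3
      rw [Prod.mk.injEq] at h3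
      exact hne (by rw [h3.1, h3.2, Sym2.eq_swap])
    · rw [hedge' i j e h] at he
      rw [hedge' k l e h']
      refine hdisj j i l k h h' ?_ e he
      rintro h3
      rw [Prod.mk.injEq] at h3
      exact hne (by rw [h3.1, h3.2])

/-! ### the bridges -/

/-- the `k`-th copy -/
def S (k : Fin 9) : Set VV := {z | ∃ x, z = .inr (k, x)}

/-- an edge leaving the copy is the bridge -/
lemma leave (k : Fin 9) {a b : VV} (h : G.Adj a b) (ha : a ∈ S k) (hb : b ∉ S k) :
    a = .inr (k, (0, 0)) ∧ b = .inl k := by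
  obtain ⟨x, rfl⟩ := ha
  rcases b with j | ⟨j, y⟩
  · obtain ⟨rfl, rfl⟩ := (adj_rl j k x).1 h
    exact ⟨rfl, rfl⟩
  · obtain ⟨rfl, -⟩ := (adj_rr k j x y).1 h
    exact absurd ⟨y, rfl⟩ hb

lemma cross (k : Fin 9) {a b : VV} (p : G.Walk a b) (ha : a ∈ S k) (hb : b ∉ S k) :
    s((.inr (k, (0, 0)) : VV), .inl k) ∈ p.edges := by
  obtain ⟨d, hd, h1, h2⟩ := p.exists_boundary_dart (S k) ha hb
  obtain ⟨e1, e2⟩ := leave k d.adj h1 h2
  have : d.edge ∈ p.edges := List.mem_map_of_mem hd
  rw [SimpleGraph.Dart.edge_mk] at this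
  rw [← e1, ← e2]
  exact this

lemma cross' (k : Fin 9) {a b : VV} (p : G.Walk a b) (ha : a ∉ S k) (hb : b ∈ S k) :
    s((.inr (k, (0, 0)) : VV), .inl k) ∈ p.edges := by
  have := cross k p.reverse hb ha
  rwa [SimpleGraph.Walk.edges_reverse, List.mem_reverse] at this

lemma stay (k : Fin 9) {a b : VV} (p : G.Walk a b) (hp : p.IsPath) (ha : a ∈ S k) (hb : b ∈ S k) :
    ∀ z ∈ p.support, z ∈ S k := by
  induction p with
  | nil =>
    intro z hz
    rw [SimpleGraph.Walk.support_nil, List.mem_singleton] at hz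
    rw [hz]; exact ha
  | cons h q ih =>
    rename_i a c b
    rw [SimpleGraph.Walk.cons_isPath_iff] at hp
    by_cases hc : c ∈ S k
    · intro z hz
      rw [SimpleGraph.Walk.support_cons, List.mem_cons] at hz
      rcases hz with rfl | hz
      · exact ha
      · exact ih hp.1 hc hb z hz
    · exfalso
      obtain ⟨e1, -⟩ := leave k h ha hc
      have := cross' k q hc hb
      have := q.fst_mem_support_of_mem_edges this
      rw [← e1] at this
      exact hp.2 this

/-- all corners lie in one copy -/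
lemma corners_in_copy {v : Fin 10 → VV} {W : ∀ i j : Fin 10, G.Walk (v i) (v j)}
    (h : Sys 10 v W) : ∃ k, ∀ i, v i ∈ S k := by
  have h1 : ∃ k i, v i ∈ S k := by
    by_contra hcon
    push Not at hcon
    have h2 : ∀ i, ∃ j : Fin 9, v i = .inl j := by
      intro i
      rcases hv : v i with j | ⟨j, x⟩
      · exact ⟨j, rfl⟩
      · exact absurd ⟨x, hv⟩ (hcon j i)
    choose f hf using h2
    have hinj : Function.Injective f := by
      intro i j hij
      apply h.inj
      rw [hf i, hf j, hij]
    have := Fintype.card_le_of_injective f hinj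
    simp at this
  obtain ⟨k, i, hi⟩ := h1
  refine ⟨k, ?_⟩
  by_contra hcon
  push Not at hcon
  obtain ⟨j, hj⟩ := hcon
  have hij : i ≠ j := by
    rintro rfl
    exact hj hi
  obtain ⟨l, hli, hlj⟩ : ∃ l : Fin 10, l ≠ i ∧ l ≠ j := by
    revert i j
    intro i _ j _ _
    have : ∀ i j : Fin 10, ∃ l : Fin 10, l ≠ i ∧ l ≠ j := by decide
    exact this i j
  have c1 := cross k (W i j) hi hj
  by_cases hl : v l ∈ S k
  · have c2 := cross k (W l j) hl hj
    refine h.disj i j l j hij hlj ?_ _ c1 c2
    intro hs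
    rw [Sym2.eq_iff] at hs
    rcases hs with ⟨h3, _⟩ | ⟨h3, _⟩
    · exact hli h3.symm
    · exact hij h3
  · have c2 := cross k (W i l) hi hl
    refine h.disj i j i l hij hli.symm ?_ _ c1 c2
    intro hs
    rw [Sym2.eq_iff] at hs
    rcases hs with ⟨_, h3⟩ | ⟨h3, _⟩
    · exact hlj h3.symm
    · exact hli h3.symm

/-! ### inside a copy -/

section Inside

variable {v : Fin 10 → VV} {W : ∀ i j : Fin 10, G.Walk (v i) (v j)} {k : Fin 9}

/-- the `k`-th embedding of `K_{3,3,3,3}` -/
def φ (k : Fin 9) (x : C) : VV := .inr (k, x)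

lemma φ_inj (k : Fin 9) : Function.Injective (φ k) := by
  intro a b hab
  simpa [φ] using hab

lemma adj_φ (k : Fin 9) (x y : C) : G.Adj (φ k x) (φ k y) ↔ x.1 ≠ y.1 := by
  unfold φ
  rw [adj_rr]
  simp

lemma nbr_card : ∀ x : C, (Finset.univ.filter (fun y : C => y.1 ≠ x.1)).card = 9 := by decide

/-- an edge of a path between corners has both ends in the copy -/
lemma edge_in (h : Sys 10 v W) (hS : ∀ i, v i ∈ S k) {i j : Fin 10} (hij : i ≠ j) {a b : VV}
    (he : s(a, b) ∈ (W i j).edges) : a ∈ S k ∧ b ∈ S k :=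
  ⟨stay k _ (h.path i j hij) (hS i) (hS j) a ((W i j).fst_mem_support_of_mem_edges he),
    stay k _ (h.path i j hij) (hS i) (hS j) b ((W i j).snd_mem_support_of_mem_edges he)⟩

/-- every edge of the copy at a corner is used by a path ending there -/
lemma corner_edges (h : Sys 10 v W) (hS : ∀ i, v i ∈ S k) (i : Fin 10) (x : C)
    (hx : v i = φ k x) (y : C) (hy : y.1 ≠ x.1) :
    ∃ j, i ≠ j ∧ s(φ k x, φ k y) ∈ (W i j).edges := by
  classical
  have hex : ∀ j : {j : Fin 10 // i ≠ j}, ∃ y : {y : C // y.1 ≠ x.1},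
      s(φ k x, φ k y) ∈ (W i j).edges := by
    rintro ⟨j, hij⟩
    have hne : v i ≠ v j := fun h' => hij (h.inj h')
    have key : ∀ (a b : VV) (p : G.Walk a b), a ≠ b → ∃ c, G.Adj a c ∧ s(a, c) ∈ p.edges := by
      intro a b p hab
      cases p with
      | nil => exact absurd rfl hab
      | cons h' q => exact ⟨_, h', by simp⟩
    obtain ⟨c, hc, hce⟩ := key _ _ (W i j) hne
    obtain ⟨y, hy⟩ := (edge_in h hS hij hce).2
    refine ⟨⟨y, ?_⟩, ?_⟩
    · rw [hx, hy] at hc
      exact ((adj_φ k x y).1 hc).symm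
    · have e1 : s(φ k x, φ k y) = s(v i, c) := by rw [hx, hy]; rfl
      show s(φ k x, φ k y) ∈ (W i j).edges
      rw [e1]
      exact hce
  choose F hF using hex
  have hinj : Function.Injective F := by
    rintro ⟨j, hj⟩ ⟨l, hl⟩ hjl
    by_contra hne
    have h1 := hF ⟨j, hj⟩
    have h2 := hF ⟨l, hl⟩
    rw [hjl] at h1
    refine h.disj i j i l hj hl ?_ _ h1 h2
    intro hs
    rw [Sym2.eq_iff] at hs
    apply hne
    apply Subtype.ext
    rcases hs with ⟨_, h3⟩ | ⟨h3, h4⟩
    · exact h3
    · exact h4.trans h3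
  have hcard : Fintype.card {j : Fin 10 // i ≠ j} = Fintype.card {y : C // y.1 ≠ x.1} := by
    rw [Fintype.card_subtype, Fintype.card_subtype, nbr_card x]
    revert i
    intro i _ _ _ _
    have : ∀ i : Fin 10, (Finset.univ.filter (fun j => i ≠ j)).card = 9 := by decide
    exact this i
  have hbij := (Fintype.bijective_iff_injective_and_card F).2 ⟨hinj, hcard⟩
  obtain ⟨⟨j, hj⟩, hjF⟩ := hbij.2 ⟨y, hy⟩
  refine ⟨j, hj, ?_⟩
  have := hF ⟨j, hj⟩
  rw [hjF] at this
  exact this

/-- corners are not interior vertices -/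
lemma corner_not_mem (h : Sys 10 v W) (hS : ∀ i, v i ∈ S k) {i j l : Fin 10} (hij : i ≠ j)
    (hil : i ≠ l) (hjl : j ≠ l) : v i ∉ (W j l).support := by
  intro hmem
  rw [SimpleGraph.Walk.mem_support_iff_exists_mem_edges] at hmem
  rcases hmem with h1 | ⟨e, he, hie⟩
  · exact hil (h.inj h1)
  · obtain ⟨b, rfl⟩ := Sym2.mem_iff_exists.1 hie
    obtain ⟨x, hx⟩ := (edge_in h hS hjl he).1
    obtain ⟨y, hy⟩ := (edge_in h hS hjl he).2
    have hadj : G.Adj (v i) b := (W j l).adj_of_mem_edges he
    have hxy : y.1 ≠ x.1 := by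
      rw [hx, hy] at hadj
      exact ((adj_φ k x y).1 hadj).symm
    obtain ⟨m, him, hm⟩ := corner_edges h hS i x hx y hxy
    have e1 : s(v i, b) = s(φ k x, φ k y) := by rw [hx, hy]; rfl
    rw [e1] at he
    refine h.disj j l i m hjl him ?_ _ he hm
    intro hs
    rw [Sym2.eq_iff] at hs
    rcases hs with ⟨h3, _⟩ | ⟨_, h3⟩
    · exact hij h3.symm
    · exact hil h3.symm

/-- some edge at a noncorner is not used -/
lemma unused (h : Sys 10 v W) (hS : ∀ i, v i ∈ S k) (a : C) (ha : ∀ i, v i ≠ φ k a) :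
    ∃ y : C, y.1 ≠ a.1 ∧ ∀ i j, i ≠ j → s(φ k a, φ k y) ∉ (W i j).edges := by
  classical
  by_contra hcon
  push Not at hcon
  let T : Finset (Fin 10 × Fin 10) := Finset.univ.filter (fun p => p.1 < p.2)
  let U : Fin 10 × Fin 10 → Finset (Sym2 VV) := fun p =>
    (W p.1 p.2).edges.toFinset.filter (fun e => φ k a ∈ e)
  have hT : ∀ p ∈ T, p.1 < p.2 := fun p hp => (Finset.mem_filter.1 hp).2
  have heven : ∀ p ∈ T, Even (U p).card := by
    intro p hp
    have hne := (hT p hp).ne
    have htr := (h.path p.1 p.2 hne).isTrail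
    have h1 := (htr.even_countP_edges_iff (φ k a)).2 (fun _ => ⟨(ha p.1).symm, (ha p.2).symm⟩)
    have h2 : (U p).card = ((W p.1 p.2).edges.countP (fun e => φ k a ∈ e)) := by
      rw [List.countP_eq_length_filter, ← List.toFinset_card_of_nodup]
      · congr 1
        ext e
        simp [U]
      · exact htr.edges_nodup.filter _
    rw [h2]
    exact h1
  have hdisj : (T : Set (Fin 10 × Fin 10)).PairwiseDisjoint U := by
    intro p hp q hq hpq
    rw [Function.onFun, Finset.disjoint_left]
    intro e he1 he2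
    simp only [U, Finset.mem_filter, List.mem_toFinset] at he1 he2
    refine h.disj p.1 p.2 q.1 q.2 (hT p hp).ne (hT q hq).ne ?_ e he1.1 he2.1
    intro hs
    rw [Sym2.eq_iff] at hs
    rcases hs with ⟨h3, h4⟩ | ⟨h3, h4⟩
    · exact hpq (Prod.ext h3 h4)
    · have h5 := hT p hp
      have h6 := hT q hq
      rw [h3, h4] at h5
      exact absurd h5 (not_lt.2 h6.le)
  have htot : Even (T.biUnion U).card := by
    rw [Finset.card_biUnion hdisj]
    exact Finset.even_sum _ heven
  have himg : T.biUnion U = (Finset.univ.filter (fun y : C => y.1 ≠ a.1)).image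
      (fun y => s(φ k a, φ k y)) := by
    ext e
    rw [Finset.mem_biUnion, Finset.mem_image]
    constructor
    · rintro ⟨p, hp, he⟩
      simp only [U, Finset.mem_filter, List.mem_toFinset] at he
      obtain ⟨b, rfl⟩ := Sym2.mem_iff_exists.1 he.2
      obtain ⟨y, hy⟩ := (edge_in h hS (hT p hp).ne he.1).2
      have hadj : G.Adj (φ k a) b := (W p.1 p.2).adj_of_mem_edges he.1
      refine ⟨y, ?_, ?_⟩
      · rw [Finset.mem_filter]
        refine ⟨Finset.mem_univ _, ?_⟩
        rw [hy] at hadj
        exact ((adj_φ k a y).1 hadj).symm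
      · rw [hy]; rfl
    · rintro ⟨y, hy, rfl⟩
      rw [Finset.mem_filter] at hy
      obtain ⟨i, j, hij, he⟩ := hcon y hy.2
      rcases lt_or_gt_of_ne hij with hlt | hlt
      · exact ⟨(i, j), Finset.mem_filter.2 ⟨Finset.mem_univ _, hlt⟩, by simp [U, he]⟩
      · rw [h.symm i j _ hij] at he
        exact ⟨(j, i), Finset.mem_filter.2 ⟨Finset.mem_univ _, hlt⟩, by simp [U, he]⟩
  rw [himg, Finset.card_image_of_injective, nbr_card a] at htot
  · exact absurd htot (by decide)
  · intro y z hyz
    have hyz' : s(φ k a, φ k y) = s(φ k a, φ k z) := hyz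
    rw [Sym2.eq_iff] at hyz'
    rcases hyz' with ⟨_, h3⟩ | ⟨h3, h4⟩
    · exact φ_inj k h3
    · exact φ_inj k (h4.trans h3)

/-- a path in a copy all of whose inner vertices are among two noncorners -/
lemma via_walk {a b : C} {α β : VV} (p : G.Walk α β) (hpath : p.IsPath)
    (hin : ∀ z ∈ p.support, z ∈ S k)
    (hcor : ∀ z : C, φ k z ∈ p.support → φ k z = α ∨ φ k z = β ∨ z = a ∨ z = b)
    (hun : s(φ k a, φ k b) ∉ p.edges) (hna : ¬ G.Adj α β) (hne : α ≠ β) :
    ∃ y, (y = a ∨ y = b) ∧ s(α, φ k y) ∈ p.edges ∧ s(φ k y, β) ∈ p.edges := by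
  cases p with
  | nil => exact absurd rfl hne
  | cons h1 q =>
    rename_i c
    rw [SimpleGraph.Walk.cons_isPath_iff] at hpath
    -- the second vertex is a noncorner
    have hc : c ∈ S k := hin c (by simp)
    obtain ⟨y, rfl⟩ := hc
    have hcmem : φ k y ∈ (SimpleGraph.Walk.cons h1 q).support := by
      rw [SimpleGraph.Walk.support_cons]
      exact List.mem_cons_of_mem _ q.start_mem_support
    have hy : y = a ∨ y = b := by
      rcases hcor y hcmem with h2 | h2 | h2
      · exact absurd h2.symm h1.ne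
      · exact absurd (show G.Adj α β by rw [← h2]; exact h1) hna
      · exact h2
    refine ⟨y, hy, by simp [φ], ?_⟩
    cases q with
    | nil => exact absurd h1 hna
    | cons h2 r =>
      rename_i c'
      have hc' : c' ∈ S k := hin c' (by simp)
      obtain ⟨z, rfl⟩ := hc'
      have hzmem : φ k z ∈ (SimpleGraph.Walk.cons h2 r).support := by
        rw [SimpleGraph.Walk.support_cons]
        exact List.mem_cons_of_mem _ r.start_mem_support
      rcases hcor z (by
        rw [SimpleGraph.Walk.support_cons]; exact List.mem_cons_of_mem _ hzmem) with h3 | h3 | h3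
      · exfalso
        apply hpath.2
        rw [← h3]
        exact hzmem
      · have e1 : s(φ k y, β) = s(φ k y, φ k z) := by rw [h3]
        rw [e1]
        simp [φ]
      · exfalso
        have hyz : y ≠ z := by
          rintro rfl
          exact h2.ne rfl
        have hmem : s(φ k y, φ k z) ∈
            (SimpleGraph.Walk.cons h1 (SimpleGraph.Walk.cons h2 r)).edges := by
          simp [φ]
        rcases hy with rfl | rfl <;> rcases h3 with rfl | rfl
        · exact hyz rfl
        · exact hun hmem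
        · rw [Sym2.eq_swap] at hmem
          exact hun hmem
        · exact hyz rfl

/-- two corners in the same part are joined by a path through a single noncorner -/
lemma via (h : Sys 10 v W) (hS : ∀ i, v i ∈ S k) {a b : C}
    (hcor : ∀ z : C, (∃ i, v i = φ k z) ∨ z = a ∨ z = b)
    (hun : ∀ i j, i ≠ j → s(φ k a, φ k b) ∉ (W i j).edges) {i j : Fin 10} (hij : i ≠ j)
    (hna : ¬ G.Adj (v i) (v j)) :
    ∃ y, (y = a ∨ y = b) ∧ s(v i, φ k y) ∈ (W i j).edges ∧ s(φ k y, v j) ∈ (W i j).edges := by
  refine via_walk (W i j) (h.path i j hij) (stay k _ (h.path i j hij) (hS i) (hS j)) ?_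
    (hun i j hij) hna (fun h' => hij (h.inj h'))
  intro z hz
  rcases hcor z with ⟨l, hl⟩ | h1
  · by_cases hli : l = i
    · left; rw [← hl, hli]
    · by_cases hlj : l = j
      · right; left; rw [← hl, hlj]
      · rw [← hl] at hz
        exact absurd hz (corner_not_mem h hS hli hlj hij)
  · exact Or.inr (Or.inr h1)

end Inside

theorem no_immersion : ¬ HasImmersion G 10 := by
  classical
  intro himm
  obtain ⟨v, W, h⟩ := exists_sys himm
  obtain ⟨k, hS⟩ := corners_in_copy h
  choose u hu using hS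
  have hu' : ∀ i, v i = φ k (u i) := hu
  have hS : ∀ i, v i ∈ S k := fun i => ⟨u i, hu i⟩
  have huinj : Function.Injective u := by
    intro i j hij
    apply h.inj
    rw [hu' i, hu' j, hij]
  -- the two noncorners
  have hcompl : ((Finset.univ.image u)ᶜ : Finset C).card = 2 := by
    rw [Finset.card_compl, Finset.card_image_of_injective _ huinj]
    simp
  obtain ⟨a, b, hab, hc⟩ := Finset.card_eq_two.1 hcompl
  have hcor : ∀ z : C, (∃ i, v i = φ k z) ∨ z = a ∨ z = b := by
    intro z
    by_cases hz : z ∈ Finset.univ.image u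
    · rw [Finset.mem_image] at hz
      obtain ⟨i, -, hi⟩ := hz
      exact Or.inl ⟨i, by rw [hu' i, hi]⟩
    · have : z ∈ ((Finset.univ.image u)ᶜ : Finset C) := Finset.mem_compl.2 hz
      rw [hc] at this
      simpa using Or.inr this
  have hna : ∀ z : C, (z = a ∨ z = b) → ∀ i, v i ≠ φ k z := by
    intro z hz i hi
    have h1 : z ∈ ((Finset.univ.image u)ᶜ : Finset C) := by
      rw [hc]; simpa using hz
    rw [Finset.mem_compl] at h1
    apply h1
    rw [Finset.mem_image]
    exact ⟨i, Finset.mem_univ _, φ_inj k ((hu' i).symm.trans hi)⟩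
  -- the edge between them is not used
  have hun : ∀ i j, i ≠ j → s(φ k a, φ k b) ∉ (W i j).edges := by
    obtain ⟨y, hy, hyun⟩ := unused h hS a (hna a (Or.inl rfl))
    have hyb : y = b := by
      rcases hcor y with ⟨i, hi⟩ | h1 | h1
      · exfalso
        obtain ⟨j, hij, hj⟩ := corner_edges h hS i y hi a hy.symm
        rw [Sym2.eq_swap] at hj
        exact hyun i j hij hj
      · exact absurd (congrArg Prod.fst h1) hy
      · exact h1
    rw [← hyb]
    exact hyun
  -- a part consisting of corners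
  obtain ⟨c, hca, hcb⟩ : ∃ c : Fin 4, c ≠ a.1 ∧ c ≠ b.1 := by
    have : ∀ x y : Fin 4, ∃ c : Fin 4, c ≠ x ∧ c ≠ y := by decide
    exact this a.1 b.1
  have hpart : ∀ t : Fin 3, ∃ i, v i = φ k (c, t) := by
    intro t
    rcases hcor (c, t) with h1 | h1 | h1
    · exact h1
    · exact absurd (congrArg Prod.fst h1) hca
    · exact absurd (congrArg Prod.fst h1) hcb
  choose w hw using hpart
  have hwinj : ∀ s t, s ≠ t → w s ≠ w t := by
    intro s t hst hwst
    apply hst
    have := (hw s).symm.trans ((congrArg v hwst).trans (hw t))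
    exact (Prod.ext_iff.1 (φ_inj k this)).2
  have hnadj : ∀ s t, ¬ G.Adj (v (w s)) (v (w t)) := by
    intro s t
    rw [hw s, hw t, adj_φ]
    simp
  have hvia : ∀ s t, s ≠ t → ∃ y, (y = a ∨ y = b) ∧ s(v (w s), φ k y) ∈ (W (w s) (w t)).edges ∧
      s(φ k y, v (w t)) ∈ (W (w s) (w t)).edges := fun s t hst =>
    via h hS hcor hun (hwinj s t hst) (hnadj s t)
  obtain ⟨y1, hy1, e1, f1⟩ := hvia 0 1 (by decide)
  obtain ⟨y2, hy2, e2, f2⟩ := hvia 1 2 (by decide)
  obtain ⟨y3, hy3, e3, f3⟩ := hvia 0 2 (by decide)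
  have n01 := hwinj 0 1 (by decide)
  have n12 := hwinj 1 2 (by decide)
  have n02 := hwinj 0 2 (by decide)
  have hpig : y1 = y2 ∨ y1 = y3 ∨ y2 = y3 := by
    rcases hy1 with rfl | rfl <;> rcases hy2 with rfl | rfl <;> rcases hy3 with rfl | rfl <;>
      simp
  rcases hpig with rfl | rfl | rfl
  · rw [Sym2.eq_swap] at f1
    refine h.disj _ _ _ _ n01 n12 ?_ _ f1 e2
    intro hs
    rw [Sym2.eq_iff] at hs
    rcases hs with ⟨h3, _⟩ | ⟨h3, _⟩
    · exact n01 h3
    · exact n02 h3
  · refine h.disj _ _ _ _ n01 n02 ?_ _ e1 e3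
    intro hs
    rw [Sym2.eq_iff] at hs
    rcases hs with ⟨_, h3⟩ | ⟨h3, _⟩
    · exact n12 h3
    · exact n02 h3
  · refine h.disj _ _ _ _ n12 n02 ?_ _ f2 f3
    intro hs
    rw [Sym2.eq_iff] at hs
    rcases hs with ⟨h3, _⟩ | ⟨_, h3⟩
    · exact n01 h3.symm
    · exact n02 h3.symm

/-- There are an integer `d` (namely `10`) and a finite graph with minimum degree `d - 1` and
chromatic number `d - 1` that contains no immersion of `K_d`. -/
theorem result :
    ∃ (d : ℕ) (V : Type) (_ : Fintype V) (G : SimpleGraph V) (_ : DecidableRel G.Adj),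
      1 ≤ d ∧ G.minDegree = d - 1 ∧ G.chromaticNumber = ((d - 1 : ℕ) : ℕ∞) ∧
        ¬ HasImmersion G d :=
  ⟨10, VV, inferInstance, G, inferInstance, by norm_num, minDegree_eq, chi_eq, no_immersion⟩

end Pool.Agent.Results.MP_5ee7f3_co.BridgedMultipartite
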